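import Pool.Agent.Helper70.SK.Stmts
import Pool.Agent.Helper70.SK.Lib

/-! Module SHIFT of the sticky Kakeya project (sk_mods). -/

namespace Pool.Agent.Helper70.SK

open Finset Pool.Agent.Helper70.DK

open Classical in
theorem shift_law {Ω α β : Type} (Z : Finset Ω) (F : Ω → α) (π : α → β) (P : β) (a : α) :
    ((fib Z (fun ω => π (F ω)) P).card : ℝ) * law (fib Z (fun ω => π (F ω)) P) F a
      = if π a = P then ((Z.filter (fun ω => F ω = a)).card : ℝ) else 0 := by
  have e1 : ((fib Z (fun ω => π (F ω)) P).card : ℝ) * law (fib Z (fun ω => π (F ω)) P) F a =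
      (((fib Z (fun ω => π (F ω)) P).filter (fun ω => F ω = a)).card : ℝ) := by
    unfold law
    refine mul_div_cancel_of_imp' ?_
    intro h
    have h1 : (fib Z (fun ω => π (F ω)) P).card = 0 := by exact_mod_cast h
    have h2 : (fib Z (fun ω => π (F ω)) P) = ∅ := Finset.card_eq_zero.1 h1
    rw [h2]
    simp
  rw [e1]
  split_ifs with h
  · congr 2
    ext ω
    simp only [fib, Finset.mem_filter]
    constructor
    · rintro ⟨⟨h1, _⟩, h3⟩
      exact ⟨h1, h3⟩
    · rintro ⟨h1, h3⟩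
      exact ⟨⟨h1, by rw [h3, h]⟩, h3⟩
  · have : ((fib Z (fun ω => π (F ω)) P).filter (fun ω => F ω = a)) = ∅ := by
      rw [Finset.filter_eq_empty_iff]
      intro ω hω h3
      simp only [fib, Finset.mem_filter] at hω
      exact h (by rw [← h3]; exact hω.2)
    rw [this]
    simp

open Classical in
theorem shift_card {Ω α β : Type} (Z : Finset Ω) (F : Ω → α) (π : α → β) (P : β) (A : Finset α)
    (hA : ∀ x ∈ Z, F x ∈ A) :
    ((fib Z (fun ω => π (F ω)) P).card : ℝ) =
      ∑ a ∈ A, if π a = P then ((Z.filter (fun ω => F ω = a)).card : ℝ) else 0 := by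
  rw [Finset.sum_congr rfl (fun a _ => (shift_law Z F π P a).symm), ← Finset.mul_sum]
  rcases (fib Z (fun ω => π (F ω)) P).eq_empty_or_nonempty with h | h
  · rw [h]
    simp
  · rw [law_sum _ F A (fun x hx => hA x (by
      simp only [fib, Finset.mem_filter] at hx
      exact hx.1)) h, mul_one]

open Classical in
theorem shift_point {Ω α β : Type} (Z : Finset Ω) (F F' : Ω → α) (π : α → β) (P : β) (A : Finset α)
    (hA : ∀ x ∈ Z, F x ∈ A) (hA' : ∀ x ∈ Z, F' x ∈ A) :
    ((fib Z (fun ω => π (F ω)) P).card : ℝ) *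
      l1 (fib Z (fun ω => π (F ω)) P) F (fib Z (fun ω => π (F' ω)) P) F' ≤
      2 * ∑ a ∈ A, if π a = P then |((Z.filter (fun ω => F ω = a)).card : ℝ) -
        ((Z.filter (fun ω => F' ω = a)).card : ℝ)| else 0 := by
  have hm : ∀ x ∈ fib Z (fun ω => π (F ω)) P, F x ∈ A := fun x hx => hA x (by
    simp only [fib, Finset.mem_filter] at hx
    exact hx.1)
  have hm' : ∀ x ∈ fib Z (fun ω => π (F' ω)) P, F' x ∈ A := fun x hx => hA' x (by
    simp only [fib, Finset.mem_filter] at hx
    exact hx.1)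
  rw [l1_eq_sum _ F _ F' A hm hm', Finset.mul_sum]
  set n : ℝ := ((fib Z (fun ω => π (F ω)) P).card : ℝ) with hn
  set n' : ℝ := ((fib Z (fun ω => π (F' ω)) P).card : ℝ) with hn'
  have hn0 : 0 ≤ n := Nat.cast_nonneg _
  have c1 : |n' - n| ≤ ∑ a ∈ A, if π a = P then |((Z.filter (fun ω => F ω = a)).card : ℝ) -
        ((Z.filter (fun ω => F' ω = a)).card : ℝ)| else 0 := by
    rw [hn, hn', shift_card Z F π P A hA, shift_card Z F' π P A hA', ← Finset.sum_sub_distrib]
    refine (Finset.abs_sum_le_sum_abs _ _).trans (Finset.sum_le_sum fun a _ => ?_)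
    split_ifs
    · rw [abs_sub_comm]
    · simp
  have c2 : ∀ a ∈ A, n * |law (fib Z (fun ω => π (F ω)) P) F a - law (fib Z (fun ω => π (F' ω)) P) F' a| ≤
      (if π a = P then |((Z.filter (fun ω => F ω = a)).card : ℝ) -
        ((Z.filter (fun ω => F' ω = a)).card : ℝ)| else 0) +
      |n' - n| * law (fib Z (fun ω => π (F' ω)) P) F' a := by
    intro a _
    have h1 := shift_law Z F π P a
    have h2 := shift_law Z F' π P a
    rw [← hn] at h1
    rw [← hn'] at h2
    have h3 := law_nonneg (fib Z (fun ω => π (F' ω)) P) F' a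
    rw [← abs_of_nonneg hn0, ← abs_mul, abs_of_nonneg hn0, mul_sub, h1]
    have e : (if π a = P then ((Z.filter (fun ω => F ω = a)).card : ℝ) else 0) -
        n * law (fib Z (fun ω => π (F' ω)) P) F' a =
        ((if π a = P then ((Z.filter (fun ω => F ω = a)).card : ℝ) else 0) -
          (if π a = P then ((Z.filter (fun ω => F' ω = a)).card : ℝ) else 0)) +
        (n' - n) * law (fib Z (fun ω => π (F' ω)) P) F' a := by
      rw [← h2]
      ring
    rw [e]
    refine (abs_add_le _ _).trans ?_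
    rw [abs_mul, abs_of_nonneg h3]
    refine add_le_add (le_of_eq ?_) le_rfl
    split_ifs
    · rfl
    · simp
  refine (Finset.sum_le_sum c2).trans ?_
  rw [Finset.sum_add_distrib, ← Finset.mul_sum]
  have c3 : ∑ a ∈ A, law (fib Z (fun ω => π (F' ω)) P) F' a ≤ 1 := by
    rcases (fib Z (fun ω => π (F' ω)) P).eq_empty_or_nonempty with h | h
    · rw [h]
      simp [law]
    · exact (law_sum _ F' A hm' h).le
  have c4 : |n' - n| * ∑ a ∈ A, law (fib Z (fun ω => π (F' ω)) P) F' a ≤ |n' - n| * 1 :=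
    mul_le_mul_of_nonneg_left c3 (abs_nonneg _)
  linarith

open Classical in
theorem shift_cnt {Ω α : Type} (Z : Finset Ω) (F F' : Ω → α) (A : Finset α)
    (hA : ∀ x ∈ Z, F x ∈ A) (hA' : ∀ x ∈ Z, F' x ∈ A) :
    ∑ a ∈ A, |((Z.filter (fun ω => F ω = a)).card : ℝ) - ((Z.filter (fun ω => F' ω = a)).card : ℝ)| ≤
      2 * ((Z.filter (fun ω => F ω ≠ F' ω)).card : ℝ) := by
  have h1 : ∀ a ∈ A, |((Z.filter (fun ω => F ω = a)).card : ℝ) - ((Z.filter (fun ω => F' ω = a)).card : ℝ)| ≤
      (((Z.filter (fun ω => F ω ≠ F' ω)).filter (fun ω => F ω = a)).card : ℝ) +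
      (((Z.filter (fun ω => F ω ≠ F' ω)).filter (fun ω => F' ω = a)).card : ℝ) := by
    intro a _
    have k1 : (Z.filter (fun ω => F ω = a)).card ≤ (Z.filter (fun ω => F' ω = a)).card +
        ((Z.filter (fun ω => F ω ≠ F' ω)).filter (fun ω => F ω = a)).card := by
      rw [← Finset.card_union_add_card_inter]
      refine le_trans (Finset.card_le_card ?_) (Nat.le_add_right _ _)
      intro ω hω
      simp only [Finset.mem_union, Finset.mem_filter] at hω ⊢
      by_cases h : F ω = F' ω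
      · left
        exact ⟨hω.1, by rw [← h]; exact hω.2⟩
      · right
        exact ⟨⟨hω.1, h⟩, hω.2⟩
    have k2 : (Z.filter (fun ω => F' ω = a)).card ≤ (Z.filter (fun ω => F ω = a)).card +
        ((Z.filter (fun ω => F ω ≠ F' ω)).filter (fun ω => F' ω = a)).card := by
      rw [← Finset.card_union_add_card_inter]
      refine le_trans (Finset.card_le_card ?_) (Nat.le_add_right _ _)
      intro ω hω
      simp only [Finset.mem_union, Finset.mem_filter] at hω ⊢
      by_cases h : F ω = F' ω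
      · left
        exact ⟨hω.1, by rw [h]; exact hω.2⟩
      · right
        exact ⟨⟨hω.1, h⟩, hω.2⟩
    have k1' : ((Z.filter (fun ω => F ω = a)).card : ℝ) ≤ ((Z.filter (fun ω => F' ω = a)).card : ℝ) +
        (((Z.filter (fun ω => F ω ≠ F' ω)).filter (fun ω => F ω = a)).card : ℝ) := by exact_mod_cast k1
    have k2' : ((Z.filter (fun ω => F' ω = a)).card : ℝ) ≤ ((Z.filter (fun ω => F ω = a)).card : ℝ) +
        (((Z.filter (fun ω => F ω ≠ F' ω)).filter (fun ω => F' ω = a)).card : ℝ) := by exact_mod_cast k2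
    have p1 : (0 : ℝ) ≤ (((Z.filter (fun ω => F ω ≠ F' ω)).filter (fun ω => F ω = a)).card : ℝ) :=
      Nat.cast_nonneg _
    have p2 : (0 : ℝ) ≤ (((Z.filter (fun ω => F ω ≠ F' ω)).filter (fun ω => F' ω = a)).card : ℝ) :=
      Nat.cast_nonneg _
    rw [abs_le]
    constructor <;> linarith
  refine (Finset.sum_le_sum h1).trans ?_
  rw [Finset.sum_add_distrib]
  have s1 : ∑ a ∈ A, (((Z.filter (fun ω => F ω ≠ F' ω)).filter (fun ω => F ω = a)).card : ℝ) =
      ((Z.filter (fun ω => F ω ≠ F' ω)).card : ℝ) := by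
    rw [Finset.card_eq_sum_card_fiberwise (f := F) (t := A) (fun x hx => by
      have hx' : x ∈ Z := (Finset.mem_filter.1 hx).1
      exact hA x hx')]
    push_cast
    rfl
  have s2 : ∑ a ∈ A, (((Z.filter (fun ω => F ω ≠ F' ω)).filter (fun ω => F' ω = a)).card : ℝ) =
      ((Z.filter (fun ω => F ω ≠ F' ω)).card : ℝ) := by
    rw [Finset.card_eq_sum_card_fiberwise (f := F') (t := A) (s := Z.filter (fun ω => F ω ≠ F' ω)) (fun x hx => by
      have hx' : x ∈ Z := (Finset.mem_filter.1 hx).1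
      exact hA' x hx')]
    push_cast
    rfl
  rw [s1, s2]
  linarith

theorem st_SHIFT : ST_SHIFT := by
  classical
  intro Ω α β Z F F' π
  set A : Finset α := Z.image F ∪ Z.image F' with hAd
  have hA : ∀ x ∈ Z, F x ∈ A := fun x hx => Finset.mem_union_left _ (Finset.mem_image_of_mem F hx)
  have hA' : ∀ x ∈ Z, F' x ∈ A := fun x hx => Finset.mem_union_right _ (Finset.mem_image_of_mem F' hx)
  have hP : ∀ x ∈ Z, π (F x) ∈ A.image π := fun x hx => Finset.mem_image_of_mem π (hA x hx)
  rw [← Finset.sum_fiberwise_of_maps_to (t := A.image π) hP]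
  have h1 : ∀ P ∈ A.image π, ∑ ω ∈ Z.filter (fun ω => π (F ω) = P),
      l1 (fib Z (fun ω' => π (F ω')) (π (F ω))) F (fib Z (fun ω' => π (F' ω')) (π (F ω))) F' ≤
      2 * ∑ a ∈ A, if π a = P then |((Z.filter (fun ω => F ω = a)).card : ℝ) -
        ((Z.filter (fun ω => F' ω = a)).card : ℝ)| else 0 := by
    intro P _
    have e : ∀ ω ∈ Z.filter (fun ω => π (F ω) = P),
        l1 (fib Z (fun ω' => π (F ω')) (π (F ω))) F (fib Z (fun ω' => π (F' ω')) (π (F ω))) F' =
        l1 (fib Z (fun ω' => π (F ω')) P) F (fib Z (fun ω' => π (F' ω')) P) F' := by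
      intro ω hω
      rw [(Finset.mem_filter.1 hω).2]
    have hf : Z.filter (fun ω => π (F ω) = P) = fib Z (fun ω => π (F ω)) P := by
      ext ω
      simp only [fib, Finset.mem_filter]
    rw [Finset.sum_congr rfl e, Finset.sum_const, nsmul_eq_mul, hf]
    have := shift_point Z F F' π P A hA hA'
    refine le_trans this (le_of_eq ?_)
    congr 1
  refine (Finset.sum_le_sum h1).trans ?_
  rw [← Finset.mul_sum, Finset.sum_comm]
  have h2 : ∀ a ∈ A, (∑ P ∈ A.image π, if π a = P then |((Z.filter (fun ω => F ω = a)).card : ℝ) -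
        ((Z.filter (fun ω => F' ω = a)).card : ℝ)| else 0) =
      |((Z.filter (fun ω => F ω = a)).card : ℝ) - ((Z.filter (fun ω => F' ω = a)).card : ℝ)| := by
    intro a ha
    rw [Finset.sum_ite_eq, if_pos (Finset.mem_image_of_mem π ha)]
  rw [Finset.sum_congr rfl h2]
  have h3 := shift_cnt Z F F' A hA hA'
  refine le_trans (mul_le_mul_of_nonneg_left h3 (by norm_num : (0:ℝ) ≤ 2)) (le_of_eq ?_)
  rw [← mul_assoc]
  norm_num

end Pool.Agent.Helper70.SK
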