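import Pool.Agent.Helper70.SK.Stmts
import Pool.Agent.Helper70.SK.Lib

/-! Module DET of the sticky Kakeya project (sk_mods). -/

namespace Pool.Agent.Helper70.SK

open Finset Pool.Agent.Helper70.DK

theorem det_box {Ω β : Type} (q K : ℕ) (S : Finset Ω) (f : Ω → Fin q → ℤ) (g : Ω → β)
    (lo : β → Fin q → ℤ)
    (h : ∀ ω ∈ S, ∀ r, lo (g ω) r ≤ f ω r ∧ f ω r ≤ lo (g ω) r + (2 * K + 2)) :
    cent S f g ≤ q * Real.log (2 * K + 3) := by
  classical
  have h1 := cent_card S f g ((2 * K + 3) ^ q) (by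
    intro c
    refine ⟨Fintype.piFinset (fun r => Finset.Icc (lo c r) (lo c r + (2 * K + 2))), ?_, ?_⟩
    · rw [Fintype.card_piFinset]
      have e : ∀ r : Fin q, (Finset.Icc (lo c r) (lo c r + (2 * (K : ℤ) + 2))).card = 2 * K + 3 := by
        intro r
        rw [Int.card_Icc]
        omega
      simp only [e, Finset.prod_const, Finset.card_univ, Fintype.card_fin, le_refl]
    · intro x hx hc
      rw [Fintype.mem_piFinset]
      intro r
      rw [Finset.mem_Icc, ← hc]
      exact h x hx r)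
  refine h1.trans (le_of_eq ?_)
  push_cast
  rw [Real.log_pow]

theorem st_DET : ST_DET := by
  refine ⟨?_, ?_, ?_⟩
  · intro Ω ζ q K S z z' Z w s hs h
    refine det_box q K S _ _ (fun c r => c.1 r + w c.2 r / s - K) ?_
    intro ω hω r
    have h1 := abs_le.1 (h ω hω r)
    have h2 := Int.emod_add_mul_ediv (z' ω r) s
    have h3 := Int.emod_nonneg (z' ω r) hs.ne'
    have h4 := Int.emod_lt_of_pos (z' ω r) hs
    have h5 := Int.emod_add_mul_ediv (w (Z ω) r) s
    have h6 := Int.emod_nonneg (w (Z ω) r) hs.ne'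
    have h7 := Int.emod_lt_of_pos (w (Z ω) r) hs
    show z' ω r / s + w (Z ω) r / s - K ≤ z ω r / s ∧ z ω r / s ≤ z' ω r / s + w (Z ω) r / s - K + (2 * K + 2)
    generalize z' ω r / s = a at *
    generalize w (Z ω) r / s = b at *
    constructor
    · rw [Int.le_ediv_iff_mul_le hs]
      nlinarith
    · have : z ω r / s < a + b - K + (2 * K + 2) + 1 := by
        rw [Int.ediv_lt_iff_lt_mul hs]
        nlinarith
      omega
  · intro Ω ζ q K S v v' Z w h
    refine det_box q K S _ _ (fun c r => c.1 r + ⌊w c.2 r⌋ - K) ?_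
    intro ω hω r
    have h1 := abs_le.1 (h ω hω r)
    have h3 := Int.floor_le (v' ω r)
    have h4 := Int.lt_floor_add_one (v' ω r)
    have h6 := Int.floor_le (w (Z ω) r)
    have h7 := Int.lt_floor_add_one (w (Z ω) r)
    show ⌊v' ω r⌋ + ⌊w (Z ω) r⌋ - K ≤ ⌊v ω r⌋ ∧ ⌊v ω r⌋ ≤ ⌊v' ω r⌋ + ⌊w (Z ω) r⌋ - K + (2 * K + 2)
    constructor
    · rw [Int.le_floor]
      push_cast
      linarith [h1.1]
    · have : ⌊v ω r⌋ < ⌊v' ω r⌋ + ⌊w (Z ω) r⌋ - K + (2 * K + 2) + 1 := by
        rw [Int.floor_lt]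
        push_cast
        linarith [h1.2]
      omega
  · intro Ω ζ q K S z Z w s hs h
    refine det_box q K S _ _ (fun c r => w c r / s - K) ?_
    intro ω hω r
    have h1 := abs_le.1 (h ω hω r)
    have h5 := Int.emod_add_mul_ediv (w (Z ω) r) s
    have h6 := Int.emod_nonneg (w (Z ω) r) hs.ne'
    have h7 := Int.emod_lt_of_pos (w (Z ω) r) hs
    show w (Z ω) r / s - K ≤ z ω r / s ∧ z ω r / s ≤ w (Z ω) r / s - K + (2 * K + 2)
    generalize w (Z ω) r / s = b at *
    constructor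
    · rw [Int.le_ediv_iff_mul_le hs]
      nlinarith
    · have : z ω r / s < b - K + (2 * K + 2) + 1 := by
        rw [Int.ediv_lt_iff_lt_mul hs]
        nlinarith
      omega

end Pool.Agent.Helper70.SK
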